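import Pool.Agent.H242.TM.Mult3

set_option autoImplicit false

/-!
# The standard map at all scales: areas of the islands, mixing times of extremely small balls

Let `S_a (x, y) = (2x - y + a sin 2πx, x)` on the torus, with `|a| ≥ 5` (NO parameter is excluded),
and let `X` be the closure of the stable set of the fixed point `O = (0, 0)`, which is also the
closure of its unstable set. The open sets which meet `X` are mixed; the components of the
complement of `X` are periodic islands, of size at most `κ = 3 / (4 |a|)`. If `S_a` is ergodic,
there are no islands. Here, for every `|a| ≥ 5`: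

* for every `m` there is a set `G_m`, the complement of which has area at most `23 m / |a|`, such
  that the islands of the points of `G_m` have size at most `κ |a|^(-m/2)`, the distance to `X` is
  at most `κ |a|^(-m/2) / 2` on `G_m`, and the images at ALL the times
  `n ≥ 4 m + 2 log₂ log₂ (2 |a|) + 6` of the horizontal segments of length `|a|^(-1-m/2)` centred at
  the points of `G_m` meet the vertical segments of this length centred at the points of `G_m`. So
  the stable and the unstable set of `O` are `|a|^(-c |a|)`-dense in more than half of the torus,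
  and the mixing time at the scale `|a|^(-n)` is of order `n` outside a set of area `46 n / |a|`;
* the union of all the islands of size larger than `κ / 3^k` has area at most `8 k / |a|`;
* the union of all the islands of period at most `Q` has area at most `4 Q / |a|`;
* every island visits the strips `|x ∓ 1/4| ≤ 1 / |a|` in each period, and its size is at most
  `κ / 3^k` if it does not visit the strips for a time `k` before and after;
* `S_a` is topologically mixing on the whole torus if and only if the stable set of `O` is dense in
  the two strips, the total area of which is `4 / |a|`.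

The proof: as `x_{n+1} + x_{n-1} = φ (x_n)`, the width `w` and the height `h ≤ w` of a connected set
(of size at most `1 / |a|`, near the point `(x, y)`) and the width `w'` of its image satisfy
`w' ≥ λ (x) w`, where `λ (x)` is large unless `x` is close to the critical points `± 1/4`; two
consecutive positions of a random point of the torus are independent and uniformly distributed,
hence the product of two consecutive `λ` is at least `√|a|` outside a set of area `O (1 / |a|)`.
-/

open Real MeasureTheory Filter Topology Set

namespace Pool.Agent.Results.MP_9ee088_an.IslandsAllScales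

/-- The torus `ℝ² / ℤ²`, with its Lebesgue measure `volume` and the sup distance. -/
abbrev Torus := UnitAddCircle × UnitAddCircle

/-- `T` is the standard map `S_a` of the torus. -/
def IsStandardMap (a : ℝ) (T : Torus → Torus) : Prop :=
  ∀ x y : ℝ, T ((x : UnitAddCircle), (y : UnitAddCircle)) =
    (((2 * x - y + a * sin (2 * π * x) : ℝ) : UnitAddCircle), (x : UnitAddCircle))

/-- The covering map from the plane to the torus. -/
noncomputable def proj (p : ℝ × ℝ) : Torus := ((p.1 : UnitAddCircle), (p.2 : UnitAddCircle))

/-- The closure `X` of the stable set of the fixed point `O = (0, 0)`, the set of the points whose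
future converges to `O`. -/
def X (T : Torus → Torus) : Set Torus :=
  closure {p | Tendsto (fun n : ℕ => T^[n] p) atTop (𝓝 (0, 0))}

/-- The island of `z`: the component of `z` in the complement of `X`. -/
def island (T : Torus → Torus) (z : Torus) : Set Torus := connectedComponentIn (X T)ᶜ z

/-- `A` has size at most `e`: all the connected subsets of its full preimage in the plane have
projections to the two axes of length at most `e`. -/
def SizeLE (e : ℝ) (A : Set Torus) : Prop :=
  ∀ C : Set (ℝ × ℝ), IsPreconnected C → C ⊆ proj ⁻¹' A → ∀ p ∈ C, ∀ q ∈ C,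
    |p.1 - q.1| ≤ e ∧ |p.2 - q.2| ≤ e

/-- The horizontal segment of length `2 r` with centre `p`. -/
def horizontal (p : Torus) (r : ℝ) : Set Torus := {z | dist z.1 p.1 ≤ r ∧ z.2 = p.2}

/-- The vertical segment of length `2 r` with centre `p`. -/
def vertical (p : Torus) (r : ℝ) : Set Torus := {z | z.1 = p.1 ∧ dist z.2 p.2 ≤ r}

/-- The two strips of width `2 / |a|` about the circles `x = 1/4` and `x = 3/4`. -/
def strips (a : ℝ) : Set Torus := {z | dist z.1 ((1 / 4 : ℝ) : UnitAddCircle) ≤ 1 / |a| ∨
  dist z.1 ((3 / 4 : ℝ) : UnitAddCircle) ≤ 1 / |a|}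

/-- `T` is topologically mixing: `T^n(U)` meets `V` for all large `n`. -/
def TopMixing (T : Torus → Torus) : Prop :=
  ∀ U V : Set Torus, IsOpen U → IsOpen V → U.Nonempty → V.Nonempty →
    ∃ N : ℕ, ∀ n ≥ N, (T^[n] '' U ∩ V).Nonempty

/-- **The islands and the mixing times at all scales.** -/
theorem result (a : ℝ) (ha : 5 ≤ |a|) (T : Torus → Torus) (hT : IsStandardMap a T) :
    -- (1) the good points
    (∃ G : ℕ → Set Torus, ∀ m : ℕ, MeasurableSet (G m) ∧
      volume (G m)ᶜ ≤ ENNReal.ofReal (23 * m / |a|) ∧
      -- mixing at all large times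
      (∀ k : ℕ, 2 * |a| ≤ 2 ^ (2 ^ k) → ∀ n ≥ 4 * m + 2 * k + 4, ∀ p ∈ G m, ∀ q ∈ G m,
        (T^[n] '' horizontal p (1 / (2 * |a|) / √|a| ^ m) ∩
          vertical q (1 / (2 * |a|) / √|a| ^ m)).Nonempty) ∧
      -- the distance to `X`, and the size of the islands
      (∀ p ∈ G m, Metric.infDist p (X T) ≤ 3 / (8 * |a|) / √|a| ^ m) ∧
      (∀ p ∈ G m, p ∉ X T → SizeLE (3 / (4 * |a|) / √|a| ^ m) (island T p))) ∧
    -- (2) the union of the islands of size larger than `κ / 3^k`, where `κ = 3 / (4 |a|)`
    (∀ k : ℕ, volume {z | z ∉ X T ∧ ¬ SizeLE (3 / (4 * |a|) / 3 ^ k) (island T z)} ≤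
      ENNReal.ofReal (8 * k / |a|)) ∧
    -- (3) the union of the islands of period at most `Q`
    (∀ Q : ℕ, volume {z | z ∉ X T ∧ ∃ q, 1 ≤ q ∧ q ≤ Q ∧ T^[q] '' island T z = island T z} ≤
      ENNReal.ofReal (4 * Q / |a|)) ∧
    -- (4) the islands visit the strips in each period
    (∀ z ∉ X T, ∀ q : ℕ, 1 ≤ q → T^[q] '' island T z = island T z →
      ∃ n < q, T^[n] '' island T z ⊆ strips a ∧
        ∃ x y : ℝ, proj (x, y) ∈ T^[n] '' island T z ∧ |2 + 2 * π * a * cos (2 * π * x)| < 4) ∧
    -- (5) the islands which do not visit the strips for a long time are extremely small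
    (∀ (y : Torus) (k : ℕ), T^[k] y ∉ X T → (∀ n < 2 * k, T^[n] y ∉ strips a) →
      SizeLE (3 / (4 * |a|) / 3 ^ k) (island T (T^[k] y))) ∧
    -- (6) the strips decide on topological mixing
    (TopMixing T ↔ strips a ⊆ X T) := by
  have hTS : T = TH705.SM.S a := TH705.SM.eq_S a T hT
  subst hTS
  refine ⟨⟨H242.TM.GG a, fun m => ⟨H242.TM.GG_meas a m, H242.TM.volume_GG ha m, ?_, ?_, ?_⟩⟩,
    fun k => H242.TM.volume_large3 ha k, fun Q => H242.TM.volume_period ha Q, ?_, ?_, ?_, ?_⟩
  · intro k hk n hn p hp q hq
    exact H242.TM.mix_good ha hp.1 hq.2 hk hn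
  · intro p hp
    exact H242.TM.dist_good ha hp
  · intro p hp hpX
    exact H242.TM.smallBy_good ha hpX hp
  · intro z hz q hq hD
    obtain ⟨n, hn, r, hr, hr2⟩ := (H242.TM.island_comp ha hz).visits ha hq hD
    refine ⟨n, hn, ?_, r.1, r.2, hr, hr2⟩
    exact H242.TM.subset_strips ha (H242.TM.isOpen_image a n (H242.TM.island_comp ha hz).isOpen)
      ((H242.TM.island_comp ha hz).isConnected.isPreconnected.image _
        ((TH705.SM.S_cont a).iterate n).continuousOn)
      ((H242.TM.island_comp ha hz).small_image ha n) hr hr2
  · intro y k hy hn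
    exact H242.TM.smallBy_visit ha hy hn
  · intro h
    have hd : Dense (H242.TM.Ws a) := by
      apply H242.TM.dense_of_no_island ha
      exact H242.TM.no_island_of_trans ha (H242.TM.trans_of_mix h)
    intro z _
    exact hd z
  · intro h U V hU hV hUn hVn
    exact H242.TM.mix_of_dense ha (H242.TM.mixing_of_strips ha h) hU hV hUn hVn

end Pool.Agent.Results.MP_9ee088_an.IslandsAllScales
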