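import Pool.Agent.H242.LD.All2

set_option autoImplicit false

/-!
# Local Hausdorff dimension of the hyperbolic part of the standard map, in every open set outside the islands

Let `T = S_a (x, y) = (2x - y + a sin 2πx, x)` on the torus, `|a| ≥ 5`, no parameter excluded, and let `X` be the closure
of the stable set of the fixed point `(0, 0)`; the open sets which do not meet `X` are unions of periodic islands of size at
most `3 / (4 |a|)` (`TopologicalMixing`). Definitions:

* `EventuallyFar T ω z`: there is a time after which the orbit of `z` stays at distance at least `ω` from the two critical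
  circles `x = 1/4` and `x = 3/4` of `T`;
* `Growth a L z`: for every point `p` of the plane over `z` there is `c > 0` such that the derivative of the `n`-th iterate of the
  lift of `T` to the plane at `p` has norm at least `c L ^ n`, for all `n ≥ 0`; so the Lyapunov exponent of `z` is at least `log L`.

Theorem. Let `U` be ANY open set which meets `X`.

(1) For all `1 / |a| < ω < 1 / 4` and all integers `3 ≤ N ≤ 4 |a| cos (2πω) - 4` the set of the points `z` of `U ∩ X` with
`EventuallyFar T ω z` and `Growth a L z`, `L = 2π|a| sin (2πω) - 3 > 1`, has Hausdorff dimension at least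
`1 + log N / log (2π|a| + 3)`.

(2) If `|a| > 12`, then the set of the points `z` of `U ∩ X` with `Growth a (2|a|) z` has Hausdorff dimension at least
`2 - 1 / log |a|`. (No exponent is larger than `log (2π|a| + 3)`.)

(3) If `|a| ≥ 1000` and `1 / √|a| ≤ ω ≤ 1 / 16`, then the set in (1) has Hausdorff dimension at least
`2 - 13 ω / log (|a| ω)`; in particular at least `2 - 26 / (√|a| log |a|)` for `ω = 1 / √|a|`, where `L ≥ 20 √|a|`.

So near each of its points `X` has almost full dimension, even its part of almost maximal Lyapunov exponents.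

Proof. The image of `U` under some iterate contains a small rectangle near the local stable manifold of `(0, 0)`, all of
whose horizontal segments are stretched, at the same time, across one of the arcs between the strips of half width `ω` about the critical
circles. Each such crossing is mapped to a curve with `N` crossings of different arcs (mean value theorem only). For each horizontal
segment this gives a Cantor set of points whose orbits avoid the strips for ever, coded by the sequences in `N` symbols;
different codes are separated by `2ω (2π|a| + 3)^(-n)` and so the Cantor sets have `s`-dimensional content bounded below uniformly,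
`s = log N / log (2π|a| + 3)`. By a slicing argument the union over all heights has dimension at least `1 + s`. For (3) the uniform
weights are replaced by the `s`-th powers of the lengths of the intervals: the pieces which are lost in the strips have a proportion `O(ω)` by
bounded distortion, and all the intervals become shorter by a factor of at least `|a| ω` in each step. These points belong to `X`,
since an island whose orbit avoids the strips shrinks by the factor `3` in each step, forwards and backwards, and is periodic.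
-/

open Real Filter Topology Set

namespace Pool.Agent.Results.MP_9ee088_an.LocalDimension

/-- The torus `ℝ² / ℤ²`. -/
abbrev Torus := UnitAddCircle × UnitAddCircle

/-- `T` is the standard map `S_a` of the torus. -/
def IsStandardMap (a : ℝ) (T : Torus → Torus) : Prop :=
  ∀ x y : ℝ, T ((x : UnitAddCircle), (y : UnitAddCircle)) =
    (((2 * x - y + a * sin (2 * π * x) : ℝ) : UnitAddCircle), (x : UnitAddCircle))

/-- The lift `F_a` of `S_a` to the plane. -/
noncomputable def planeMap (a : ℝ) (p : ℝ × ℝ) : ℝ × ℝ :=
  (2 * p.1 - p.2 + a * sin (2 * π * p.1), p.1)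

/-- The covering map from the plane to the torus. -/
noncomputable def proj (p : ℝ × ℝ) : Torus := ((p.1 : UnitAddCircle), (p.2 : UnitAddCircle))

/-- The stable set of the fixed point `O = (0, 0)`: the points whose future converges to `O`. -/
def stableSet (T : Torus → Torus) : Set Torus :=
  {p | Tendsto (fun n : ℕ => T^[n] p) atTop (𝓝 (0, 0))}

/-- After some time the orbit of `z` stays at distance at least `ω` from the circles `x = 1/4` and `x = 3/4`. -/
def EventuallyFar (T : Torus → Torus) (ω : ℝ) (z : Torus) : Prop :=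
  ∃ n₀ : ℕ, ∀ n ≥ n₀, ω ≤ dist (T^[n] z).1 ((1 / 4 : ℝ) : UnitAddCircle) ∧
    ω ≤ dist (T^[n] z).1 ((3 / 4 : ℝ) : UnitAddCircle)

/-- The derivatives of the iterates at `z` grow at least like `L ^ n`. -/
def Growth (a L : ℝ) (z : Torus) : Prop :=
  ∀ p : ℝ × ℝ, proj p = z → ∃ c > 0, ∀ n : ℕ, c * L ^ n ≤ ‖fderiv ℝ ((planeMap a)^[n]) p‖

theorem planeMap_eq (a : ℝ) : planeMap a = H242.TM.F a := by
  funext p
  unfold planeMap H242.TM.F H242.TM.phi
  congr 1
  ring

theorem proj_eq : proj = H242.TM.pr := rfl

theorem stable_eq (a : ℝ) : stableSet (TH705.SM.S a) = H242.TM.Ws a := rfl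

/-- **Local Hausdorff dimension of the points of `X` with large Lyapunov exponents.** -/
theorem result (a : ℝ) (ha : 5 ≤ |a|) (T : Torus → Torus) (hT : IsStandardMap a T)
    (U : Set Torus) (hU : IsOpen U) (hUX : (U ∩ closure (stableSet T)).Nonempty) :
    (∀ (ω : ℝ) (N : ℕ), 1 / |a| < ω → ω < 1 / 4 → 3 ≤ N → (N : ℝ) + 4 ≤ 4 * |a| * cos (2 * π * ω) →
      1 < 2 * π * |a| * sin (2 * π * ω) - 3 ∧
      ENNReal.ofReal (1 + Real.log N / Real.log (2 * π * |a| + 3)) ≤
        dimH {z | z ∈ U ∩ closure (stableSet T) ∧ EventuallyFar T ω z ∧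
          Growth a (2 * π * |a| * sin (2 * π * ω) - 3) z}) ∧
    (12 < |a| → ENNReal.ofReal (2 - 1 / Real.log |a|) ≤
      dimH {z | z ∈ U ∩ closure (stableSet T) ∧ Growth a (2 * |a|) z}) ∧
    (1000 ≤ |a| → ∀ ω : ℝ, 1 / √|a| ≤ ω → ω ≤ 1 / 16 →
      ENNReal.ofReal (2 - 13 * ω / Real.log (|a| * ω)) ≤
        dimH {z | z ∈ U ∩ closure (stableSet T) ∧ EventuallyFar T ω z ∧
          Growth a (2 * π * |a| * sin (2 * π * ω) - 3) z}) := by
  have hTS : T = TH705.SM.S a := TH705.SM.eq_S a T hT
  subst hTS
  rw [stable_eq] at *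
  have key : ∀ (ω : ℝ) (N : ℕ), 1 / |a| < ω → ω < 1 / 4 → 3 ≤ N →
      (N : ℝ) + 4 ≤ 4 * |a| * cos (2 * π * ω) →
      1 < 2 * π * |a| * sin (2 * π * ω) - 3 ∧
      ENNReal.ofReal (1 + Real.log N / Real.log (2 * π * |a| + 3)) ≤
        dimH {z | z ∈ U ∩ closure (H242.TM.Ws a) ∧ EventuallyFar (TH705.SM.S a) ω z ∧
          Growth a (2 * π * |a| * sin (2 * π * ω) - 3) z} := by
    intro ω N h1 h2 hN hN2
    have hd := H242.LD.t_main ha h1 h2 hN hN2 hU hUX
    have hsub : {z : Torus | z ∈ U ∩ closure (H242.TM.Ws a) ∧ H242.LD.Far a ω z} ⊆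
        {z | z ∈ U ∩ closure (H242.TM.Ws a) ∧ EventuallyFar (TH705.SM.S a) ω z ∧
          Growth a (2 * π * |a| * sin (2 * π * ω) - 3) z} := by
      rintro z ⟨hz, hf⟩
      refine ⟨hz, hf, fun p hp => ?_⟩
      rw [planeMap_eq]
      exact (H242.LD.t_growth ha h1 h2 hf hp).2
    refine ⟨?_, hd.trans (dimH_mono hsub)⟩
    by_contra hcon
    have hne : {z : Torus | z ∈ U ∩ closure (H242.TM.Ws a) ∧ H242.LD.Far a ω z}.Nonempty := by
      rw [nonempty_iff_ne_empty]
      intro h0
      rw [h0, dimH_empty] at hd
      have h3 : 0 < 1 + Real.log N / Real.log (2 * π * |a| + 3) := by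
        have h4 : 0 ≤ Real.log N := Real.log_natCast_nonneg N
        have h5 : 0 ≤ Real.log (2 * π * |a| + 3) := Real.log_nonneg (by
          have : 0 ≤ 2 * π * |a| := by positivity
          linarith)
        positivity
      exact absurd hd (not_le.2 (ENNReal.ofReal_pos.2 h3))
    obtain ⟨z, hz, hf⟩ := hne
    obtain ⟨p, hp⟩ := H242.TM.pr_surj z
    exact hcon (H242.LD.t_growth ha h1 h2 hf hp).1
  have hmono : ∀ ω : ℝ, 1 / |a| < ω → ω < 1 / 4 →
      {z : Torus | z ∈ U ∩ closure (H242.TM.Ws a) ∧ H242.LD.Far a ω z} ⊆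
        {z | z ∈ U ∩ closure (H242.TM.Ws a) ∧ EventuallyFar (TH705.SM.S a) ω z ∧
          Growth a (2 * π * |a| * sin (2 * π * ω) - 3) z} := by
    rintro ω h1 h2 z ⟨hz, hf⟩
    refine ⟨hz, hf, fun p hp => ?_⟩
    rw [planeMap_eq]
    exact (H242.LD.t_growth ha h1 h2 hf hp).2
  refine ⟨key, fun ha12 => ?_, fun ha1000 ω hω1 hω2 =>
    (H242.LD.t_main2 ha1000 hω1 hω2 hU hUX).trans (dimH_mono (hmono ω
      (H242.LD.t_NUM2 a ω ha1000 hω1 hω2).2.2.1 (by linarith)))⟩
  obtain ⟨N, hN, hN2, hN3, hN4⟩ := H242.LD.t_NUM a ha12.le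
  have h1 : 1 / |a| < 1 / 12 := one_div_lt_one_div_of_lt (by norm_num) ha12
  obtain ⟨-, hd⟩ := key (1 / 12) N h1 (by norm_num) hN hN2
  refine (ENNReal.ofReal_le_ofReal hN3).trans (hd.trans (dimH_mono ?_))
  rintro z ⟨hz, -, hg⟩
  refine ⟨hz, fun p hp => ?_⟩
  obtain ⟨c, hc, hcn⟩ := hg p hp
  refine ⟨c, hc, fun n => le_trans ?_ (hcn n)⟩
  exact mul_le_mul_of_nonneg_left (pow_le_pow_left₀ (by positivity) hN4 n) hc.le

end Pool.Agent.Results.MP_9ee088_an.LocalDimension
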