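import Pool.Agent.H242.TM.Time

set_option autoImplicit false

/-!
# The topological mixing time of the standard map at all scales larger than `1 / |a|`

Let `S_a (x, y) = (2x - y + a sin 2πx, x)` on the torus, with `|a| ≥ 5` (NO parameter is excluded).
Let `1 / (2 |a|) ≤ r ≤ 1 / 2` and let `m` be so large that `(4 |a| r)^(2^m) ≥ 2 |a|`. Then at ALL
times `n ≥ 2 m + 4` the image under `S_a^n` of every horizontal segment of length `2 r` meets every
vertical segment of length `2 r`; in particular the images of any ball of radius `r` meet all the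
balls of radius `r`. For `r = 1 / (2 |a|)` the time is `2 log₂ log |a| + O(1)`, and for
`r = |a|^(-s)`, `0 < s < 1`, it is `2 log₂ (1 / (1 - s)) + O(1)`.

This is sharp up to the additive constant: for an integer `a ≠ 0` the images at all times
`n ≤ 2 m` of the ball of radius `r ≥ 1 / (2 |a|)` with centre `(1/4, 1/4)` do not meet the ball of
radius `r` with centre `(3/4, 3/4)`, if `(26 |a| r)^(2^m) < (13/2) |a|`.
-/

open Real MeasureTheory Filter Topology Set

namespace Pool.Agent.Results.MP_9ee088_an.MixingTime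

/-- The torus `ℝ² / ℤ²`, with the sup distance. -/
abbrev Torus := UnitAddCircle × UnitAddCircle

/-- `T` is the standard map `S_a` of the torus. -/
def IsStandardMap (a : ℝ) (T : Torus → Torus) : Prop :=
  ∀ x y : ℝ, T ((x : UnitAddCircle), (y : UnitAddCircle)) =
    (((2 * x - y + a * sin (2 * π * x) : ℝ) : UnitAddCircle), (x : UnitAddCircle))

/-- The horizontal segment of length `2 r` with centre `p`. -/
def horizontal (p : Torus) (r : ℝ) : Set Torus := {z | dist z.1 p.1 ≤ r ∧ z.2 = p.2}

/-- The vertical segment of length `2 r` with centre `p`. -/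
def vertical (p : Torus) (r : ℝ) : Set Torus := {z | z.1 = p.1 ∧ dist z.2 p.2 ≤ r}

/-- The point `(t, t)` of the torus. -/
noncomputable def diagonal (t : ℝ) : Torus := ((t : UnitAddCircle), (t : UnitAddCircle))

/-- **The mixing time at all scales larger than `1 / |a|`.** -/
theorem result :
    -- (1) the upper bound, for every parameter
    (∀ a : ℝ, 5 ≤ |a| → ∀ T : Torus → Torus, IsStandardMap a T →
      ∀ r : ℝ, 1 / (2 * |a|) ≤ r → r ≤ 1 / 2 → ∀ m : ℕ, 2 * |a| ≤ (4 * |a| * r) ^ (2 ^ m) →
      ∀ n : ℕ, 2 * m + 4 ≤ n → ∀ p q : Torus,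
        (T^[n] '' horizontal p r ∩ vertical q r).Nonempty) ∧
    -- (2) the lower bound, for the integers
    (∀ a : ℤ, a ≠ 0 → ∀ T : Torus → Torus, IsStandardMap a T →
      ∀ r : ℝ, 1 / (2 * |(a : ℝ)|) ≤ r → ∀ m : ℕ,
      (26 * |(a : ℝ)| * r) ^ (2 ^ m) < 13 / 2 * |(a : ℝ)| →
      ∀ n : ℕ, n ≤ 2 * m →
        T^[n] '' Metric.closedBall (diagonal (1 / 4)) r ∩
          Metric.closedBall (diagonal (3 / 4)) r = ∅) := by
  refine ⟨?_, ?_⟩
  · intro a ha T hT r hr hr1 m hm n hn p q
    have hTS : T = TH705.SM.S a := TH705.SM.eq_S a T hT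
    subst hTS
    exact H242.TM.mix_segments (by linarith) hr hr1 hm hn p q
  · intro a ha T hT r hr m hm n hn
    have hTS : T = TH705.SM.S (a : ℝ) := TH705.SM.eq_S a T hT
    subst hTS
    exact disjoint_iff_inter_eq_empty.1 (H242.TM.no_mix_integer ha hr hm hn)

end Pool.Agent.Results.MP_9ee088_an.MixingTime
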