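import Pool.Agent.H242.TM.Cont

set_option autoImplicit false

/-!
# The standard map is topologically mixing outside small periodic islands, for every `|a| ≥ 5`

Let `S_a (x, y) = (2x - y + a sin 2πx, x)` on the torus, with `|a| ≥ 5` (NO parameter is excluded).
Sinai's conjecture says that for many parameters `S_a` is ergodic; then it is topologically
transitive. Here, for every `|a| ≥ 5`:

* the stable and the unstable set of the hyperbolic fixed point `O = (0, 0)` have the same closure
  `X`, and any two open sets which meet `X` are mixed: `S_a^n(U)` meets `V` for all large `n`;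
* the complement of `X` is a union of periodic islands: domains `D` with `S_a^q(D) = D`, all the
  images of which are small: all the connected subsets of their preimage in the plane have
  projections to both axes of length at most `3 / (4 |a|)`. The closure of the orbit of an island
  does not contain `O`, and `X` meets every closed ball of radius `3 / (8 |a|)`;
* an arbitrary subset `C` of the torus, invariant under some power of `S_a`, is either small or its
  closure contains `X`; and bounded connected subsets of the plane which the lift `F_a^q` maps to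
  an integer translate of themselves are small;
* the only obstructions to topological mixing are the islands: `S_a` is topologically mixing if and
  only if it is topologically transitive, if and only if it has no island, if and only if the stable
  set of `O` is dense; this is the case if `S_a` is ergodic.

The proof: a connected subset of the plane of width `w` and height `h ≤ w` has an image of width at
least `4 |a| w² - w - h`, hence becomes wide and crosses the local stable manifold of `O`, and wide
and tall crossing paths meet (Poincaré-Miranda). An open set none of whose images contains wide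
paths is small by Poincaré recurrence of pairs of points: the diameters of the images of a path
decrease to at most `3 / (4 |a|)`, but its end points come back near their initial positions.
-/

open Real MeasureTheory Filter Topology Set

namespace Pool.Agent.Results.MP_9ee088_an.TopologicalMixing

/-- The torus `ℝ² / ℤ²`, with its Lebesgue measure `volume` and the sup distance. -/
abbrev Torus := UnitAddCircle × UnitAddCircle

/-- `T` is the standard map `S_a` of the torus. -/
def IsStandardMap (a : ℝ) (T : Torus → Torus) : Prop :=
  ∀ x y : ℝ, T ((x : UnitAddCircle), (y : UnitAddCircle)) =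
    (((2 * x - y + a * sin (2 * π * x) : ℝ) : UnitAddCircle), (x : UnitAddCircle))

/-- The lift of `S_a` to the plane. -/
noncomputable def planeMap (a : ℝ) (p : ℝ × ℝ) : ℝ × ℝ :=
  (2 * p.1 - p.2 + a * sin (2 * π * p.1), p.1)

/-- The covering map from the plane to the torus. -/
noncomputable def proj (p : ℝ × ℝ) : Torus := ((p.1 : UnitAddCircle), (p.2 : UnitAddCircle))

/-- `A` is small: all the connected subsets of its full preimage in the plane have projections to
the two axes of length at most `3 / (4 |a|)`. -/
def Small (a : ℝ) (A : Set Torus) : Prop :=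
  ∀ C : Set (ℝ × ℝ), IsPreconnected C → C ⊆ proj ⁻¹' A → ∀ p ∈ C, ∀ q ∈ C,
    |p.1 - q.1| ≤ 3 / (4 * |a|) ∧ |p.2 - q.2| ≤ 3 / (4 * |a|)

/-- The stable set of the fixed point `O = (0, 0)`: the points whose future converges to `O`. -/
def stableSet (T : Torus → Torus) : Set Torus :=
  {p | Tendsto (fun n : ℕ => T^[n] p) atTop (𝓝 (0, 0))}

/-- The unstable set of `O`: the points with a past which converges to `O`. -/
def unstableSet (T : Torus → Torus) : Set Torus :=
  {p | ∃ u : ℕ → Torus, u 0 = p ∧ (∀ n, T (u (n + 1)) = u n) ∧ Tendsto u atTop (𝓝 (0, 0))}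

/-- `U` and `V` are mixed: `T^n(U)` meets `V` for all large `n`. -/
def Mixed (T : Torus → Torus) (U V : Set Torus) : Prop :=
  ∃ N : ℕ, ∀ n ≥ N, (T^[n] '' U ∩ V).Nonempty

/-- `T` is topologically mixing. -/
def TopMixing (T : Torus → Torus) : Prop :=
  ∀ U V : Set Torus, IsOpen U → IsOpen V → U.Nonempty → V.Nonempty → Mixed T U V

/-- `T` is topologically transitive. -/
def TopTransitive (T : Torus → Torus) : Prop :=
  ∀ U V : Set Torus, IsOpen U → IsOpen V → U.Nonempty → V.Nonempty →
    ∃ n : ℕ, (T^[n] '' U ∩ V).Nonempty

/-- `D` is an island: a nonempty open connected set, with `T^q(D) = D` for some `q ≥ 1`, all the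
images `T^n(D)` of which are small. -/
structure Island (a : ℝ) (T : Torus → Torus) (D : Set Torus) : Prop where
  isOpen : IsOpen D
  isConnected : IsConnected D
  periodic : ∃ q : ℕ, 1 ≤ q ∧ T^[q] '' D = D
  small : ∀ n : ℕ, Small a (T^[n] '' D)

theorem planeMap_eq (a : ℝ) : planeMap a = H242.TM.F a := by
  funext p
  unfold planeMap H242.TM.F H242.TM.phi
  congr 1
  ring

theorem proj_eq : proj = H242.TM.pr := rfl

theorem small_iff (a : ℝ) (A : Set Torus) : Small a A ↔ H242.TM.Small a A := Iff.rfl

theorem stable_eq (a : ℝ) : stableSet (TH705.SM.S a) = H242.TM.Ws a := rfl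

theorem si_swap (a : ℝ) (n : ℕ) (z : Torus) :
    Prod.swap ((TH705.SM.S a)^[n] z) = (TH705.SM.Si a)^[n] (Prod.swap z) := by
  have h := H242.TM.iter_swap a n (Prod.swap z)
  rw [Prod.swap_swap] at h
  rw [h, Prod.swap_swap]

theorem unstable_eq (a : ℝ) : unstableSet (TH705.SM.S a) = H242.TM.Wu a := by
  ext p
  constructor
  · rintro ⟨u, hu0, hu, hlim⟩
    have h1 : ∀ n, u n = (TH705.SM.Si a)^[n] p := by
      intro n
      induction n with
      | zero => exact hu0
      | succ n ih =>
        rw [Function.iterate_succ_apply', ← ih, ← hu n, TH705.SM.Si_S]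
    refine ⟨Prod.swap p, ?_, Prod.swap_swap p⟩
    change Tendsto (fun n : ℕ => (TH705.SM.S a)^[n] (Prod.swap p)) atTop _
    have h2 := ((continuous_swap (X := UnitAddCircle) (Y := UnitAddCircle)).tendsto
      ((0, 0) : Torus)).comp hlim
    refine h2.congr (fun n => ?_)
    simp only [Function.comp]
    rw [h1, H242.TM.iter_swap]
  · rintro ⟨z, hz, rfl⟩
    refine ⟨fun n => (TH705.SM.Si a)^[n] (Prod.swap z), rfl, ?_, ?_⟩
    · intro n
      change TH705.SM.S a ((TH705.SM.Si a)^[n + 1] (Prod.swap z)) =
        (TH705.SM.Si a)^[n] (Prod.swap z)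
      rw [Function.iterate_succ_apply', H242.TM.S_Si]
    · have h1 : Tendsto (fun n : ℕ => (TH705.SM.S a)^[n] z) atTop
        (𝓝 ((0 : UnitAddCircle), (0 : UnitAddCircle))) := hz
      have h2 := ((continuous_swap (X := UnitAddCircle) (Y := UnitAddCircle)).tendsto
        ((0, 0) : Torus)).comp h1
      refine h2.congr (fun n => ?_)
      simp only [Function.comp]
      rw [si_swap]

theorem island_iff {a : ℝ} (ha : 5 ≤ |a|) (D : Set Torus) :
    Island a (TH705.SM.S a) D ↔ H242.TM.Island a D := by
  constructor
  · intro h
    refine ⟨h.isOpen, h.isConnected, h.periodic, ?_⟩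
    have h1 := h.small 0
    rw [Function.iterate_zero, image_id] at h1
    exact h1
  · intro h
    exact ⟨h.isOpen, h.isConnected, h.periodic, fun n => h.small_image ha n⟩

/-- the closed balls of radius `3 / (8 |a|)` meet `X` -/
theorem ball_meets {a : ℝ} (ha : 5 ≤ |a|) (z : Torus) :
    (Metric.closedBall z (3 / (8 * |a|)) ∩ closure (H242.TM.Ws a)).Nonempty := by
  by_contra hcon
  have ha0 : 0 < |a| := by linarith
  have hr : 0 < 3 / (8 * |a|) := by positivity
  have hsub : Metric.closedBall z (3 / (8 * |a|)) ⊆ (closure (H242.TM.Ws a))ᶜ :=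
    fun x hx hx2 => hcon ⟨x, hx, hx2⟩
  obtain ⟨δ, hδ0, hδ⟩ := (isCompact_closedBall z (3 / (8 * |a|))).exists_thickening_subset_open
    isClosed_closure.isOpen_compl hsub
  have hs : H242.TM.Small a (closure (H242.TM.Ws a))ᶜ :=
    H242.TM.small_of_disjoint ha isClosed_closure.isOpen_compl disjoint_compl_left
  obtain ⟨p, rfl⟩ := H242.TM.pr_surj z
  set r := 3 / (8 * |a|) with hrdef
  have e1 : 3 / (4 * |a|) = 2 * r := by rw [hrdef]; field_simp; norm_num
  have h1 := (hs ((fun s : ℝ => ((p.1 + s, p.2) : ℝ × ℝ)) '' Icc (-(r + δ / 2)) (r + δ / 2))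
    (isPreconnected_Icc.image _ (by fun_prop)) (by
      rintro _ ⟨s, hs, rfl⟩
      apply hδ
      rw [Metric.mem_thickening_iff]
      -- the point of the closed ball
      have key : ∃ s', |s'| ≤ r ∧ |s - s'| < δ := by
        rcases le_total |s| r with h | h
        · exact ⟨s, h, by simpa using hδ0⟩
        · rcases abs_cases s with ⟨h2, _⟩ | ⟨h2, _⟩
          · refine ⟨r, (abs_of_pos hr).le, ?_⟩
            rw [abs_lt]
            constructor <;> linarith [hs.2]
          · refine ⟨-r, by rw [abs_neg, abs_of_pos hr], ?_⟩
            rw [abs_lt]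
            constructor <;> linarith [hs.1]
      obtain ⟨s', hs', hss'⟩ := key
      refine ⟨H242.TM.pr (p.1 + s', p.2), ?_, ?_⟩
      · rw [Metric.mem_closedBall, Prod.dist_eq]
        apply max_le
        · change dist ((p.1 + s' : ℝ) : UnitAddCircle) (p.1 : UnitAddCircle) ≤ _
          rw [dist_eq_norm, ← AddCircle.coe_sub, show p.1 + s' - p.1 = s' by ring]
          exact (QuotientAddGroup.norm_mk_le_norm).trans (by rw [Real.norm_eq_abs]; exact hs')
        · change dist (p.2 : UnitAddCircle) (p.2 : UnitAddCircle) ≤ _
          rw [dist_self]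
          exact hr.le
      · rw [Prod.dist_eq]
        apply max_lt
        · change dist ((p.1 + s : ℝ) : UnitAddCircle) ((p.1 + s' : ℝ) : UnitAddCircle) < _
          rw [dist_eq_norm, ← AddCircle.coe_sub, show p.1 + s - (p.1 + s') = s - s' by ring]
          exact (QuotientAddGroup.norm_mk_le_norm).trans_lt
            (by rw [Real.norm_eq_abs]; exact hss')
        · change dist (p.2 : UnitAddCircle) (p.2 : UnitAddCircle) < _
          rw [dist_self]
          exact hδ0)
    _ (mem_image_of_mem _ (show r + δ / 2 ∈ Icc (-(r + δ / 2)) (r + δ / 2) from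
      ⟨by linarith, le_rfl⟩))
    _ (mem_image_of_mem _ (show -(r + δ / 2) ∈ Icc (-(r + δ / 2)) (r + δ / 2) from
      ⟨le_rfl, by linarith⟩))).1
  simp only at h1
  rw [show p.1 + (r + δ / 2) - (p.1 + -(r + δ / 2)) = 2 * r + δ by ring,
    abs_of_pos (by linarith), e1] at h1
  linarith

/-- **The standard map is topologically mixing outside small periodic islands.** -/
theorem result (a : ℝ) (ha : 5 ≤ |a|) (T : Torus → Torus) (hT : IsStandardMap a T) :
    ∃ X : Set Torus,
      -- (1) the closures of the stable and of the unstable set of the fixed point coincide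
      closure (stableSet T) = X ∧ closure (unstableSet T) = X ∧ T ⁻¹' X = X ∧
      -- (2) the open sets which meet `X` are mixed
      (∀ U V : Set Torus, IsOpen U → IsOpen V → (U ∩ X).Nonempty → (V ∩ X).Nonempty →
        Mixed T U V) ∧
      -- (3) the complement of `X` consists of islands, which stay away from the fixed point, and
      -- the open sets which do not meet `X` are small
      (∀ p, p ∉ X → Island a T (connectedComponentIn Xᶜ p)) ∧
      (∀ D, Island a T D → ((0, 0) : Torus) ∉ closure (⋃ n : ℕ, T^[n] '' D)) ∧
      (∀ U : Set Torus, IsOpen U → Disjoint U X → Small a U) ∧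
      (∀ z, (Metric.closedBall z (3 / (8 * |a|)) ∩ X).Nonempty) ∧
      -- (4) the sets invariant under a power of the map, and the periodic connected sets
      (∀ (C : Set Torus) (q : ℕ), 1 ≤ q → T^[q] '' C = C → Small a C ∨ X ⊆ closure C) ∧
      (∀ (C : Set (ℝ × ℝ)) (q : ℕ) (k l : ℤ), 1 ≤ q → IsPreconnected C → Bornology.IsBounded C →
        (planeMap a)^[q] '' C = (fun p => p + ((k : ℝ), (l : ℝ))) '' C →
        ∀ p ∈ C, ∀ p' ∈ C, |p.1 - p'.1| ≤ 3 / (4 * |a|) ∧ |p.2 - p'.2| ≤ 3 / (4 * |a|)) ∧
      -- (5) the islands are the only obstruction to topological mixing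
      [TopMixing T, TopTransitive T, ∀ D, ¬ Island a T D, Dense (stableSet T)].TFAE ∧
      (Ergodic T volume → TopMixing T) := by
  have hTS : T = TH705.SM.S a := TH705.SM.eq_S a T hT
  subst hTS
  have hmix : ∀ U V : Set Torus, Mixed (TH705.SM.S a) U V ↔ H242.TM.Mix a U V :=
    fun _ _ => Iff.rfl
  have hdense_mix : Dense (stableSet (TH705.SM.S a)) → TopMixing (TH705.SM.S a) := by
    intro h U V hU hV hUn hVn
    exact H242.TM.mix_of_dense ha h hU hV hUn hVn
  have hisl_dense : (∀ D, ¬ Island a (TH705.SM.S a) D) → Dense (stableSet (TH705.SM.S a)) := by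
    intro h
    exact H242.TM.dense_of_no_island ha (fun D hD => h D ((island_iff ha D).2 hD))
  refine ⟨closure (H242.TM.Ws a), rfl, ?_, H242.TM.preimage_X a, ?_, ?_, ?_, ?_, ball_meets ha,
    ?_, ?_, ?_, ?_⟩
  · rw [unstable_eq]
    exact (H242.TM.closure_eq ha).symm
  · intro U V hU hV hU' hV'
    exact H242.TM.mix_meet ha hU hV hU' hV'
  · intro p hp
    exact (island_iff ha _).2 (H242.TM.island_comp ha hp)
  · intro D hD
    exact ((island_iff ha D).1 hD).not_mem ha
  · intro U hU hd
    exact H242.TM.small_of_disjoint ha hU hd
  · intro C q hq hC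
    by_cases h : Small a C
    · exact Or.inl h
    · exact Or.inr (H242.TM.dichotomy ha hq hC h)
  · intro C q k l hq hC hb h p hp p' hp'
    rw [planeMap_eq] at h
    exact H242.TM.periodic_small (by linarith) hC hb hq h hp hp'
  · tfae_have 1 → 2 := fun h => H242.TM.trans_of_mix h
    tfae_have 2 → 3 := fun h D hD =>
      H242.TM.no_island_of_trans ha h D ((island_iff ha D).1 hD)
    tfae_have 3 → 4 := hisl_dense
    tfae_have 4 → 1 := hdense_mix
    tfae_finish
  · intro h
    apply hdense_mix
    apply hisl_dense
    intro D hD
    exact H242.TM.no_island_of_ergodic ha h D ((island_iff ha D).1 hD)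

end Pool.Agent.Results.MP_9ee088_an.TopologicalMixing
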